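import Mathlib

set_option autoImplicit false

open Set Filter Topology

namespace Pool.Agent.Results.MP_8bee83_an.Main

/-- Covering dimension at most n. -/
def DimLE (Z : Type) [TopologicalSpace Z] (n : ℕ) : Prop :=
  ∀ (ι : Type) [Finite ι] (U : ι → Set Z), (∀ i, IsOpen (U i)) → (⋃ i, U i) = Set.univ →
    ∃ (κ : Type) (_ : Finite κ) (V : κ → Set Z),
      (∀ k, IsOpen (V k)) ∧ (⋃ k, V k) = Set.univ ∧ (∀ k, ∃ i, V k ⊆ U i) ∧
      ∀ x, Nat.card {k // x ∈ V k} ≤ n + 1

open Classical in
/-- Covering dimension, equal to -∞ for the empty space. -/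
noncomputable def dimE (Z : Type) [TopologicalSpace Z] : EReal :=
  if IsEmpty Z then ⊥ else sInf {r : EReal | ∃ n : ℕ, DimLE Z n ∧ r = n}

/-- Least dimension of a compact metrizable target of an ε-embedding. -/
noncomputable def widim (Z : Type) [MetricSpace Z] (ε : ℝ) : EReal :=
  sInf {r : EReal | ∃ (P : Type) (_ : TopologicalSpace P), CompactSpace P ∧
    TopologicalSpace.MetrizableSpace P ∧ ∃ f : Z → P, Continuous f ∧
      (∀ x x', f x = f x' → dist x x' < ε) ∧ r = dimE P}

/-- The set Map(ρ, F, δ, σ). -/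
def Map {G : Type} (X : Type) [Group G] [MetricSpace X] [MulAction G X] (F : Finset G) (δ : ℝ)
    {d : ℕ} (σ : G → Equiv.Perm (Fin d)) : Set (Fin d → X) :=
  {φ | ∀ s ∈ F, Real.sqrt (1 / (d : ℝ) * ∑ l, dist (φ (σ s l)) (s • φ l) ^ 2) ≤ δ}

/-- Sofic approximation sequence. -/
def IsSofic {G : Type} [Group G] (d : ℕ → ℕ) (σ : ∀ i, G → Equiv.Perm (Fin (d i))) : Prop :=
  (∀ s t, Tendsto (fun i => (Nat.card {k // σ i (s * t) k = σ i s (σ i t k)} : ℝ) / d i)
    atTop (𝓝 1)) ∧
  (∀ s t, s ≠ t → Tendsto (fun i => (Nat.card {k // σ i s k ≠ σ i t k} : ℝ) / d i) atTop (𝓝 1)) ∧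
  Tendsto d atTop atTop

/-- Sofic mean dimension. -/
noncomputable def mdim {G : Type} (X : Type) [Group G] [MetricSpace X] [MulAction G X]
    (d : ℕ → ℕ) (σ : ∀ i, G → Equiv.Perm (Fin (d i))) : EReal :=
  ⨆ (ε : ℝ) (_ : 0 < ε), ⨅ (F : Finset G) (δ : ℝ) (_ : 0 < δ),
    limsup (fun i => widim (Map X F δ (σ i)) ε / ((d i : ℝ) : EReal)) atTop

open Classical in
lemma cube {J : Type} [Fintype J] (k : ℕ) {P : Set (J → ℝ)} (hP : IsCompact P)
    (h : ∀ y ∈ P, (Finset.univ.filter fun j => y j ≠ 0).card ≤ k) : DimLE P k := by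
  intro ι _ U hU hUU
  haveI : CompactSpace P := isCompact_iff_compactSpace.1 hP
  obtain ⟨η, hη, hb⟩ := lebesgue_number_lemma_of_metric isCompact_univ hU hUU.ge
  set c : Fin (k + 1) → ℝ := fun j => ((j : ℝ) + 1) / (k + 2) with hc
  have hc0 : ∀ j, 0 < c j := fun j => by simp only [hc]; positivity
  have hc1 : ∀ j, c j < 1 := fun j => by
    have : (j : ℝ) < k + 1 := by exact_mod_cast j.2
    simp only [hc]; rw [div_lt_one (by positivity)]; linarith
  set V : Fin (k + 1) × (J → ℤ) → Set P := fun a =>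
    ⋂ i, {x | x.1 i / η - c a.1 ∈ Ioo (a.2 i : ℝ) (a.2 i + 1)} with hV
  have hVo : ∀ a, IsOpen (V a) := fun a =>
    isOpen_iInter_of_finite fun i => by
      have h0 : Continuous fun x : P => x.1 i := (continuous_apply i).comp continuous_subtype_val
      have h1 : Continuous fun x : P => x.1 i / η - c a.1 :=
        (h0.div_const η).sub continuous_const
      exact isOpen_Ioo.preimage h1
  have hcov : ∀ x : P, ∃ a, x ∈ V a := by
    intro x
    have : ∃ j, ∀ i, ∀ m : ℤ, x.1 i / η - c j ≠ m := by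
      by_contra h'
      push Not at h'
      choose i m him using h'
      have h1 : ∀ j, x.1 (i j) ≠ 0 := by
        intro j h0
        have h2 := him j
        rw [h0, zero_div, zero_sub] at h2
        have h3 : (-1 : ℝ) < m j := by linarith [hc1 j]
        have h4 : (m j : ℝ) < 0 := by linarith [hc0 j]
        have h5 : -1 < m j := by exact_mod_cast h3
        have h6 : m j < 0 := by exact_mod_cast h4
        omega
      have h2 : Function.Injective i := by
        intro j j' hj
        have h3 := him j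
        have h4 := him j'
        rw [← hj] at h4
        have h5 : (m j : ℝ) < m j' + 1 := by linarith [hc0 j, hc1 j']
        have h6 : (m j' : ℝ) < m j + 1 := by linarith [hc0 j', hc1 j]
        have h7 : m j < m j' + 1 := by exact_mod_cast h5
        have h8 : m j' < m j + 1 := by exact_mod_cast h6
        have h9 : m j = m j' := by omega
        have h10 : c j = c j' := by rw [h9] at h3; linarith
        simp only [hc] at h10
        rw [div_left_inj' (by positivity), add_left_inj, Nat.cast_inj] at h10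
        exact Fin.ext h10
      have h3 := Finset.card_le_card_of_injOn (s := Finset.univ) i
        (t := Finset.univ.filter fun j => x.1 j ≠ 0) (fun j _ => by simpa using h1 j) h2.injOn
      have := h x.1 x.2
      simp only [Finset.card_univ, Fintype.card_fin] at h3
      omega
    obtain ⟨j, hj⟩ := this
    exact ⟨(j, fun i => ⌊x.1 i / η - c j⌋), mem_iInter.2 fun i =>
      ⟨lt_of_le_of_ne (Int.floor_le _) (hj i _).symm, Int.lt_floor_add_one _⟩⟩
  obtain ⟨T, hT⟩ := isCompact_univ.elim_finite_subcover V hVo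
    (fun x _ => mem_iUnion.2 (hcov x))
  refine ⟨{a // a ∈ T ∧ (V a).Nonempty},
    (T.finite_toSet.subset fun a (ha : a ∈ T ∧ _) => ha.1).to_subtype,
    fun a => V a.1, fun a => hVo _, ?_, ?_, fun x => ?_⟩
  · refine eq_univ_of_forall fun x => ?_
    have := hT (mem_univ x)
    simp only [mem_iUnion] at this ⊢
    obtain ⟨a, ha, hx⟩ := this
    exact ⟨⟨a, ha, x, hx⟩, hx⟩
  · rintro ⟨a, -, x, hx⟩
    obtain ⟨i, hi⟩ := hb x (mem_univ x)
    refine ⟨i, fun y hy => hi ?_⟩
    rw [Metric.mem_ball, Subtype.dist_eq, dist_pi_lt_iff hη]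
    intro l
    have h1 := mem_iInter.1 hx l
    have h2 := mem_iInter.1 hy l
    have h3 : |y.1 l / η - x.1 l / η| < 1 := by
      rw [abs_lt]; constructor <;> linarith [h1.1, h1.2, h2.1, h2.2]
    rwa [← sub_div, abs_div, abs_of_pos hη, div_lt_one hη] at h3
  · refine (Nat.card_le_card_of_injective (fun a => a.1.1.1) ?_).trans (by simp)
    rintro ⟨⟨⟨j, ν⟩, _⟩, h1⟩ ⟨⟨⟨j', ν'⟩, _⟩, h2⟩ (rfl : j = j')
    have : ν = ν' := funext fun i => by
      have h3 := mem_iInter.1 h1 i
      have h4 := mem_iInter.1 h2 i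
      have h5 : (ν i : ℝ) < ν' i + 1 := h3.1.trans h4.2
      have h6 : (ν' i : ℝ) < ν i + 1 := h4.1.trans h3.2
      have h7 : ν i < ν' i + 1 := by exact_mod_cast h5
      have h8 : ν' i < ν i + 1 := by exact_mod_cast h6
      omega
    subst this
    rfl

open Classical in
lemma pou {X : Type} [MetricSpace X] [CompactSpace X] {n : ℕ} (hX : DimLE X n) {η : ℝ}
    (hη : 0 < η) : ∃ (ι : Type) (_ : Fintype ι) (p : ι → X → ℝ), (∀ k, Continuous (p k)) ∧
      (∀ x, ∑ k, p k x = 1) ∧ (∀ x, (Finset.univ.filter fun k => p k x ≠ 0).card ≤ n + 1) ∧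
      ∀ x x', (∀ k, p k x = p k x') → dist x x' < η := by
  obtain ⟨T, hT⟩ := isCompact_univ.elim_finite_subcover (fun x : X => Metric.ball x (η / 2))
    (fun _ => Metric.isOpen_ball) (fun x _ => mem_iUnion.2 ⟨x, Metric.mem_ball_self (by linarith)⟩)
  obtain ⟨κ, _, V, hV, hVU, hVB, hVn⟩ := hX T (fun t => Metric.ball t.1 (η / 2))
    (fun _ => Metric.isOpen_ball) (eq_univ_of_forall fun x => by
      have := hT (mem_univ x)
      simp only [mem_iUnion] at this ⊢
      obtain ⟨t, ht, h⟩ := this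
      exact ⟨⟨t, ht⟩, h⟩)
  haveI := Fintype.ofFinite κ
  obtain ⟨f, hf⟩ := PartitionOfUnity.exists_isSubordinate isClosed_univ V hV hVU.ge
  have hfV : ∀ k x, f k x ≠ 0 → x ∈ V k := fun k x h => hf k (subset_tsupport _ h)
  have h1 : ∀ x, ∑ k, f k x = 1 := fun x => by
    rw [← finsum_eq_sum_of_fintype]; exact f.sum_eq_one (mem_univ _)
  refine ⟨κ, inferInstance, fun k => f k, fun k => (f k).continuous, h1, fun x => ?_,
    fun x x' h => ?_⟩
  · refine le_trans ?_ (hVn x)
    rw [Nat.card_eq_fintype_card, Fintype.card_subtype]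
    exact Finset.card_le_card fun k hk => by
      simp only [Finset.mem_filter, Finset.mem_univ, true_and] at hk ⊢
      exact hfV k x hk
  · obtain ⟨k, -, hk⟩ := Finset.exists_ne_zero_of_sum_ne_zero ((h1 x).trans_ne one_ne_zero)
    obtain ⟨t, ht⟩ := hVB k
    have h2 := ht (hfV k x hk)
    have h3 := ht (hfV k x' (fun h0 => hk ((h k).trans h0)))
    rw [Metric.mem_ball] at h2 h3
    linarith [dist_triangle_right x x' t.1]

open Classical in
lemma net {G : Type} {d : ℕ} (F : Finset G) (σ : G → Equiv.Perm (Fin d)) {M : ℕ} (hM : 0 < M)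
    (hF : F.card = M * M) (Bad : Finset (Fin d))
    (hB : ∀ c, c ∉ Bad → InjOn (fun s => σ s c) F) :
    ∃ C : Finset (Fin d), M * C.card ≤ 2 * d + M * Bad.card ∧
      ∀ v, v ∉ C → ∃ s ∈ F, ∃ c ∈ C, v = σ s c := by
  set R : Finset (Fin d) → Finset (Fin d) := fun C =>
    Finset.univ.filter fun v => ∀ s ∈ F, ∀ c ∈ C, v ≠ σ s c with hR
  obtain ⟨C, -, hC⟩ := Finset.exists_min_image Finset.univ
    (fun C => M * C.card + (R C).card) ⟨∅, Finset.mem_univ _⟩
  have h1 : M * C.card ≤ d := by
    have := hC ∅ (Finset.mem_univ _)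
    have h2 : (R ∅).card ≤ d := by simpa using Finset.card_le_univ (R ∅)
    simp only [Finset.card_empty, mul_zero, zero_add] at this
    omega
  have h2 : ∀ c, c ∉ Bad → (F.filter fun s => σ s c ∈ R C).card ≤ M := by
    intro c hc
    rw [← Finset.card_image_of_injOn ((hB c hc).mono (Finset.coe_subset.2
      (Finset.filter_subset _ _)))]
    have h3 := hC (insert c C) (Finset.mem_univ _)
    have h4 : M * (insert c C).card ≤ M * C.card + M :=
      Nat.mul_le_mul_left M (Finset.card_insert_le c C)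
    have h5 : (R (insert c C)).card + ((F.filter fun s => σ s c ∈ R C).image
        fun s => σ s c).card ≤ (R C).card := by
      rw [← Finset.card_union_of_disjoint]
      · refine Finset.card_le_card (Finset.union_subset (fun v hv => ?_) fun v hv => ?_)
        · simp only [hR, Finset.mem_filter, Finset.mem_univ, true_and] at hv ⊢
          exact fun s hs c' hc' => hv s hs c' (Finset.mem_insert_of_mem hc')
        · obtain ⟨s, hs, rfl⟩ := Finset.mem_image.1 hv
          exact (Finset.mem_filter.1 hs).2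
      · refine Finset.disjoint_left.2 fun v hv hv' => ?_
        obtain ⟨s, hs, rfl⟩ := Finset.mem_image.1 hv'
        exact (Finset.mem_filter.1 hv).2 s (Finset.mem_filter.1 hs).1 c
          (Finset.mem_insert_self _ _) rfl
    omega
  have h3 : ∑ c, (F.filter fun s => σ s c ∈ R C).card = M * M * (R C).card := by
    simp only [Finset.card_filter]
    rw [Finset.sum_comm, ← hF, ← smul_eq_mul, ← Finset.sum_const]
    refine Finset.sum_congr rfl fun s _ => ?_
    rw [Equiv.sum_comp (σ s) (fun v => if v ∈ R C then 1 else 0)]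
    simp
  have h4 : ∑ c, (F.filter fun s => σ s c ∈ R C).card ≤
      ∑ c : Fin d, (M + if c ∈ Bad then M * M else 0) := by
    refine Finset.sum_le_sum fun c _ => ?_
    split_ifs with hc
    · exact (Finset.card_filter_le _ _).trans (by omega)
    · simpa using h2 c hc
  have h5 : M * (R C).card ≤ d + M * Bad.card := by
    rw [h3, Finset.sum_add_distrib] at h4
    simp only [Finset.sum_const, Finset.card_univ, Fintype.card_fin, smul_eq_mul,
      Finset.sum_ite_mem, Finset.univ_inter] at h4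
    refine Nat.le_of_mul_le_mul_left ?_ hM
    nlinarith
  refine ⟨C ∪ R C, ?_, fun v hv => ?_⟩
  · have := Nat.mul_le_mul_left M (Finset.card_union_le C (R C))
    rw [mul_add] at this
    omega
  · simp only [hR, Finset.mem_union, Finset.mem_filter, Finset.mem_univ, true_and, not_or] at hv
    have := hv.2
    push Not at this
    obtain ⟨s, hs, c, hc, h⟩ := this
    exact ⟨s, hs, c, Finset.mem_union_left _ hc, h⟩

open Classical in
lemma bound {G X : Type} [Group G] [MetricSpace X] [CompactSpace X] [MulAction G X]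
    [ContinuousConstSMul G X] {n : ℕ} (hX : DimLE X n) {ε δ : ℝ} (hε : 0 < ε) (F : Finset G)
    {d : ℕ} (hd : 0 < d) (σ : G → Equiv.Perm (Fin d)) (C : Finset (Fin d))
    (hC : ∀ v, v ∉ C → ∃ s ∈ F, ∃ c ∈ C, v = σ s c) :
    widim (Map X F δ σ) ε ≤
      (((n + 1) * (C.card + F.card * (16 * δ ^ 2 * d / ε ^ 2)) : ℝ) : EReal) := by
  obtain ⟨η, hη, hηε, hu⟩ : ∃ η : ℝ, 0 < η ∧ η ≤ ε ∧
      ∀ s ∈ F, ∀ x y : X, dist x y < η → dist (s • x) (s • y) < ε / 4 := by
    have h1 : ∀ᶠ η in 𝓝[>] (0:ℝ), ∀ s ∈ F, ∀ x y : X, dist x y < η →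
        dist (s • x) (s • y) < ε / 4 := by
      rw [eventually_all_finset]
      intro s _
      obtain ⟨η, hη, h⟩ := Metric.uniformContinuous_iff.1
        (CompactSpace.uniformContinuous_of_continuous (continuous_const_smul (T := X) s))
        (ε / 4) (by positivity)
      filter_upwards [Ioo_mem_nhdsGT hη] with θ hθ x y hxy using h (hxy.trans hθ.2)
    obtain ⟨η, h2, h3⟩ := (h1.and (Ioo_mem_nhdsGT hε)).exists
    exact ⟨η, h3.1, h3.2.le, h2⟩
  obtain ⟨ι, _, p, hp, hp1, hpn, hpd⟩ := pou hX hη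
  choose! s hs c hc hsc using hC
  set t : Fin d → (Fin d → X) → ℝ := fun v φ =>
    if v ∈ C then 1 else max 0 (dist (φ v) (s v • φ (c v)) - ε / 4) with ht
  set f : (Fin d → X) → (Fin d × ι → ℝ) := fun φ a => t a.1 φ * p a.2 (φ a.1) with hf
  have hfc : Continuous f := by
    refine continuous_pi fun a => Continuous.mul ?_ ((hp a.2).comp (continuous_apply _))
    simp only [ht]
    split_ifs
    · exact continuous_const
    · fun_prop
  have hMc : IsClosed (Map X F δ σ) := by
    have : Map X F δ σ = ⋂ s ∈ F, {φ | Real.sqrt (1 / (d : ℝ) *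
        ∑ l, dist (φ (σ s l)) (s • φ l) ^ 2) ≤ δ} := by
      ext φ; simp [Map]
    rw [this]
    exact isClosed_biInter fun s _ => isClosed_le (by fun_prop) continuous_const
  have hP : IsCompact (f '' Map X F δ σ) := hMc.isCompact.image hfc
  set k : ℕ := (n + 1) * (C.card + F.card * ⌊16 * δ ^ 2 * d / ε ^ 2⌋₊) with hk
  have hdim : DimLE (f '' Map X F δ σ) k := by
    refine cube k hP ?_
    rintro _ ⟨φ, hφ, rfl⟩
    set B : G → Finset (Fin d) := fun g =>
      Finset.univ.filter fun l => ε / 4 < dist (φ (σ g l)) (g • φ l) with hB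
    have hB1 : ∀ g ∈ F, (B g).card ≤ ⌊16 * δ ^ 2 * d / ε ^ 2⌋₊ := by
      intro g hg
      apply Nat.le_floor
      have h1 := hφ g hg
      have h2 : 1 / (d : ℝ) * ∑ l, dist (φ (σ g l)) (g • φ l) ^ 2 ≤ δ ^ 2 :=
        (Real.sqrt_le_iff.1 h1).2
      have hd' : (0:ℝ) < d := by exact_mod_cast hd
      rw [one_div, inv_mul_le_iff₀ hd'] at h2
      have h3 : (B g).card • ((ε / 4) ^ 2) ≤ ∑ l ∈ B g, dist (φ (σ g l)) (g • φ l) ^ 2 :=
        Finset.card_nsmul_le_sum _ _ _ fun l hl =>
          pow_le_pow_left₀ (by positivity) (Finset.mem_filter.1 hl).2.le 2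
      have h4 : ∑ l ∈ B g, dist (φ (σ g l)) (g • φ l) ^ 2 ≤ ∑ l, dist (φ (σ g l)) (g • φ l) ^ 2 :=
        Finset.sum_le_sum_of_subset_of_nonneg (Finset.subset_univ _) fun _ _ _ => by positivity
      rw [nsmul_eq_mul] at h3
      rw [le_div_iff₀ (by positivity)]
      nlinarith
    set W := C ∪ F.biUnion fun g => (B g).image (σ g) with hW
    have hW1 : W.card ≤ C.card + F.card * ⌊16 * δ ^ 2 * d / ε ^ 2⌋₊ :=
      (Finset.card_union_le _ _).trans (Nat.add_le_add_left (Finset.card_biUnion_le_card_mul _ _ _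
        fun g hg => Finset.card_image_le.trans (hB1 g hg)) _)
    have hsub : (Finset.univ.filter fun a => f φ a ≠ 0) ⊆ W.biUnion fun v =>
        (Finset.univ.filter fun k => p k (φ v) ≠ 0).image fun k => (v, k) := by
      rintro ⟨v, k⟩ ha
      have ha := (Finset.mem_filter.1 ha).2
      refine Finset.mem_biUnion.2 ⟨v, ?_, Finset.mem_image.2 ⟨k, Finset.mem_filter.2
        ⟨Finset.mem_univ _, right_ne_zero_of_mul ha⟩, rfl⟩⟩
      by_cases hv : v ∈ C
      · exact Finset.mem_union_left _ hv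
      · have h1 : t v φ ≠ 0 := left_ne_zero_of_mul ha
        simp only [ht, if_neg hv] at h1
        refine Finset.mem_union_right _ (Finset.mem_biUnion.2 ⟨s v, hs v hv,
          Finset.mem_image.2 ⟨c v, Finset.mem_filter.2 ⟨Finset.mem_univ _, ?_⟩, (hsc v hv).symm⟩⟩)
        rw [← hsc v hv]
        by_contra h2
        exact h1 (max_eq_left (by linarith [not_lt.1 h2]))
    refine (Finset.card_le_card hsub).trans ((Finset.card_biUnion_le_card_mul _ _ (n + 1)
      fun v _ => Finset.card_image_le.trans (hpn _)).trans ?_)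
    rw [hk, mul_comm]
    exact Nat.mul_le_mul_left _ hW1
  have hemb : ∀ φ ψ, f φ = f ψ → dist φ ψ < ε := by
    intro φ ψ h
    have h1 : ∀ v, t v φ = t v ψ := fun v => by
      have : ∑ k, f φ (v, k) = ∑ k, f ψ (v, k) := by rw [h]
      simpa only [hf, ← Finset.mul_sum, hp1, mul_one] using this
    have h2 : ∀ v, t v φ ≠ 0 → dist (φ v) (ψ v) < η := fun v hv => hpd _ _ fun k => by
      have := congrFun h (v, k)
      simp only [hf, ← h1] at this
      exact mul_left_cancel₀ hv this
    rw [dist_pi_lt_iff hε]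
    intro v
    by_cases h3 : t v φ = 0
    · have hv : v ∉ C := fun hv => by simp [ht, hv] at h3
      have h4 := h3
      rw [h1] at h4
      simp only [ht, if_neg hv] at h3 h4
      have h5 := hu _ (hs v hv) _ _ (h2 (c v) (by simp [ht, hc v hv]))
      have h6 := (le_max_right _ _).trans h3.le
      have h7 := (le_max_right _ _).trans h4.le
      linarith [dist_triangle4 (φ v) (s v • φ (c v)) (s v • ψ (c v)) (ψ v),
        dist_comm (ψ v) (s v • ψ (c v))]
    · exact (h2 v h3).trans_le hηε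
  have h1 : widim (Map X F δ σ) ε ≤ dimE (f '' Map X F δ σ) :=
    sInf_le ⟨f '' Map X F δ σ, inferInstance, isCompact_iff_compactSpace.1 hP, inferInstance,
      fun φ => ⟨f φ.1, mem_image_of_mem f φ.2⟩, (hfc.comp continuous_subtype_val).subtype_mk _,
      fun φ ψ h => hemb φ.1 ψ.1 (congrArg Subtype.val h), rfl⟩
  have h2 : dimE (f '' Map X F δ σ) ≤ (k : EReal) := by
    unfold dimE
    split_ifs
    · exact bot_le
    · exact sInf_le ⟨k, hdim, rfl⟩
  refine (h1.trans h2).trans ?_
  rw [← EReal.coe_coe_eq_natCast, EReal.coe_le_coe_iff, hk]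
  push_cast
  gcongr
  exact Nat.floor_le (by positivity)

theorem result (G X : Type) [Group G] [Countable G] [Infinite G] [MetricSpace X] [CompactSpace X]
    [MulAction G X] [ContinuousConstSMul G X] (hX : ∃ n, DimLE X n)
    (d : ℕ → ℕ) (σ : ∀ i, G → Equiv.Perm (Fin (d i))) (hσ : IsSofic d σ) :
    mdim X d σ ≤ 0 := by
  classical
  obtain ⟨n, hX⟩ := hX
  refine iSup₂_le fun ε hε => EReal.le_of_forall_lt_iff_le.1 fun κ hκ => ?_
  replace hκ : 0 < κ := by exact_mod_cast hκ
  set θ := κ / (4 * (n + 1)) with hθ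
  have hθ0 : 0 < θ := by positivity
  have hθ1 : (n + 1) * (4 * θ) = κ := by rw [hθ]; field_simp
  obtain ⟨M, hM⟩ := exists_nat_gt (1 / θ)
  have hM0 : (0:ℝ) < M := lt_trans (by positivity) hM
  rw [div_lt_iff₀ hθ0] at hM
  obtain ⟨F, -, hF⟩ := (Set.infinite_univ (α := G)).exists_subset_card_eq (M * M)
  have hFR : (F.card : ℝ) = M * M := by exact_mod_cast hF
  set δ := ε * Real.sqrt θ / (4 * M) with hδ
  have hδ1 : (M * M : ℝ) * (16 * δ ^ 2 / ε ^ 2) = θ := by
    rw [hδ, div_pow, mul_pow, Real.sq_sqrt hθ0.le]; field_simp; norm_num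
  refine iInf_le_of_le F (iInf₂_le_of_le δ (by positivity) ?_)
  refine limsup_le_of_le (by isBoundedDefault) ?_
  set β := θ / (M * M * (M * M)) with hβ
  have hβ0 : 0 < β := by positivity
  have h1 : ∀ᶠ i in atTop, ∀ s ∈ F, ∀ t ∈ F, s ≠ t →
      1 - β < (Nat.card {k // σ i s k ≠ σ i t k} : ℝ) / d i := by
    simp only [eventually_all_finset]
    intro s _ t _
    by_cases h : s = t
    · exact Eventually.of_forall fun _ h' => absurd h h'
    · filter_upwards [(hσ.2.1 s t h).eventually (lt_mem_nhds (by linarith : 1 - β < 1))]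
        with i hi _ using hi
  filter_upwards [h1, hσ.2.2.eventually_gt_atTop 0] with i hi hd
  have hd' : (0:ℝ) < d i := by exact_mod_cast hd
  set Bad : Finset (Fin (d i)) := (F ×ˢ F).biUnion fun a =>
    Finset.univ.filter fun k => a.1 ≠ a.2 ∧ σ i a.1 k = σ i a.2 k with hBad
  have hB : (Bad.card : ℝ) ≤ θ * d i := by
    have h2 : (Bad.card : ℝ) ≤ ∑ a ∈ F ×ˢ F, ((Finset.univ.filter fun k => a.1 ≠ a.2 ∧
        σ i a.1 k = σ i a.2 k).card : ℝ) := by exact_mod_cast Finset.card_biUnion_le
    refine h2.trans ((Finset.sum_le_card_nsmul _ _ (β * d i) fun a ha => ?_).trans ?_)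
    · by_cases h : a.1 = a.2
      · simp [h]; positivity
      · have h3 := hi a.1 (Finset.mem_product.1 ha).1 a.2 (Finset.mem_product.1 ha).2 h
        rw [lt_div_iff₀ hd', Nat.card_eq_fintype_card, Fintype.card_subtype] at h3
        have h4 := Finset.card_filter_add_card_filter_not (s := Finset.univ)
          (fun k => σ i a.1 k = σ i a.2 k)
        rw [Finset.card_univ, Fintype.card_fin] at h4
        have h5 : ((Finset.univ.filter fun k => σ i a.1 k = σ i a.2 k).card : ℝ) +
          (Finset.univ.filter fun k => ¬ σ i a.1 k = σ i a.2 k).card = d i := by exact_mod_cast h4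
        simp only [ne_eq, h, not_false_eq_true, true_and] at h3 ⊢
        linarith
    · rw [nsmul_eq_mul, Finset.card_product, hβ]
      push_cast
      rw [hFR]
      field_simp
      rfl
  obtain ⟨C, hC1, hC2⟩ := net F (σ i) (by exact_mod_cast hM0) hF Bad (by
    intro c hc s hs t ht hst
    by_contra h
    exact hc (Finset.mem_biUnion.2 ⟨(s, t), Finset.mem_product.2 ⟨hs, ht⟩,
      Finset.mem_filter.2 ⟨Finset.mem_univ _, h, hst⟩⟩))
  have hC3 : (C.card : ℝ) ≤ 3 * θ * d i := by
    have h2 : (M : ℝ) * C.card ≤ 2 * d i + M * Bad.card := by exact_mod_cast hC1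
    refine le_of_mul_le_mul_left ?_ hM0
    nlinarith [mul_le_mul_of_nonneg_left hB hM0.le, mul_pos hd' (sub_pos.2 hM)]
  rw [EReal.div_le_iff_le_mul (by exact_mod_cast hd) (EReal.coe_ne_top _)]
  refine (bound hX hε F hd (σ i) C hC2).trans ?_
  rw [← EReal.coe_mul, EReal.coe_le_coe_iff, ← hθ1, hFR]
  have h2 : (M * M : ℝ) * (16 * δ ^ 2 * d i / ε ^ 2) = θ * d i := by rw [← hδ1]; ring
  rw [h2]
  nlinarith [mul_le_mul_of_nonneg_left hC3 (by positivity : (0:ℝ) ≤ n + 1)]

end Pool.Agent.Results.MP_8bee83_an.Main
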